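import Pool.Agent.EVF.StmtsS

/-!
# Squad EVF, row FIN: a nonzero binary form has finitely many coprime zeros
-/

set_option autoImplicit false

namespace Pool.Agent.EVF.H92

open MvPolynomial

theorem scale {n : ℕ} {ψ : MvPolynomial (Fin 2) ℤ} (hψ : ψ.IsHomogeneous n) {R : Type}
    [CommRing R] (c : R) (t : Fin 2 → R) :
    aeval (fun i => c * t i) ψ = c ^ n * aeval t ψ := by
  rw [aeval_def, aeval_def, eval₂_eq', eval₂_eq', Finset.mul_sum]
  refine Finset.sum_congr rfl fun e he => ?_
  have h1 : e.degree = n := by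
    by_contra hne
    rw [mem_support_iff] at he
    exact he (hψ.coeff_eq_zero hne)
  have h2 : e 0 + e 1 = n := by
    rw [← h1, Finsupp.degree_eq_sum, Fin.sum_univ_two]
  rw [Fin.prod_univ_two, Fin.prod_univ_two, mul_pow, mul_pow, ← h2, pow_add]
  ring

theorem fin : FinStmt := by
  classical
  intro n ψ hψ h0
  -- the dehomogenised polynomial
  obtain ⟨P, hP⟩ : ∃ P : Polynomial ℚ, P = aeval ![Polynomial.X, 1] ψ := ⟨_, rfl⟩
  have hev : ∀ r : ℚ, P.eval r = aeval ![r, 1] ψ := by
    intro r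
    have h1 := comp_aeval_apply (R := ℤ) ![(Polynomial.X : Polynomial ℚ), 1]
      ((Polynomial.evalRingHom r : Polynomial ℚ →+* ℚ).toIntAlgHom) ψ
    have h2 : (fun i => ((Polynomial.evalRingHom r : Polynomial ℚ →+* ℚ).toIntAlgHom)
        ((![(Polynomial.X : Polynomial ℚ), 1] : Fin 2 → Polynomial ℚ) i)) = ![r, 1] := by
      funext i
      fin_cases i
      · change Polynomial.eval r Polynomial.X = r
        rw [Polynomial.eval_X]
      · change Polynomial.eval r 1 = 1
        rw [Polynomial.eval_one]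
    rw [h2] at h1
    rw [hP]
    exact h1
  have hcast : ∀ t : Fin 2 → ℤ, aeval (fun i => (t i : ℚ)) ψ = ((eval t ψ : ℤ) : ℚ) := by
    intro t
    rw [aeval_def, eval_eq', eval₂_eq', Int.cast_sum]
    refine Finset.sum_congr rfl fun e _ => ?_
    push_cast
    rfl
  have hkey : ∀ t : Fin 2 → ℤ, t 1 ≠ 0 →
      ((eval t ψ : ℤ) : ℚ) = (t 1 : ℚ) ^ n * P.eval ((t 0 : ℚ) / t 1) := by
    intro t ht
    have ht' : (t 1 : ℚ) ≠ 0 := by exact_mod_cast ht
    rw [hev, ← scale hψ, ← hcast]
    congr 2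
    funext i
    fin_cases i
    · change (t 0 : ℚ) = (t 1 : ℚ) * ((t 0 : ℚ) / t 1)
      field_simp
    · change (t 1 : ℚ) = (t 1 : ℚ) * 1
      rw [mul_one]
  have hP0 : P ≠ 0 := by
    intro hP0
    have h1 : (X 1 : MvPolynomial (Fin 2) ℤ) * ψ = 0 := by
      refine MvPolynomial.funext fun t => ?_
      rw [map_mul, eval_X, map_zero]
      by_cases ht : t 1 = 0
      · rw [ht, zero_mul]
      · have h2 := hkey t ht
        rw [hP0, Polynomial.eval_zero, mul_zero] at h2
        have h3 : eval t ψ = 0 := by exact_mod_cast h2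
        rw [h3, mul_zero]
    rcases mul_eq_zero.1 h1 with h2 | h2
    · exact X_ne_zero 1 h2
    · exact h0 h2
  -- the finite set
  refine Set.Finite.subset (s := (((P.roots.toFinset.image fun r => ![r.num, (r.den : ℤ)]) ∪
    (P.roots.toFinset.image fun r => ![-r.num, -(r.den : ℤ)]) ∪ {![1, 0], ![-1, 0]} :
      Finset (Fin 2 → ℤ)) : Set (Fin 2 → ℤ))) (Finset.finite_toSet _) ?_
  rintro t ⟨hc, ht⟩
  rw [Finset.mem_coe, Finset.mem_union, Finset.mem_union]
  have heta : t = ![t 0, t 1] := by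
    funext i
    fin_cases i
    · rfl
    · rfl
  by_cases h1 : t 1 = 0
  · right
    rw [h1, isCoprime_zero_right, Int.isUnit_iff] at hc
    rw [heta, h1]
    rcases hc with h2 | h2
    · rw [h2]
      exact Finset.mem_insert_self _ _
    · rw [h2]
      exact Finset.mem_insert_of_mem (Finset.mem_singleton_self _)
  · left
    have h2 := hkey t h1
    rw [ht, Int.cast_zero] at h2
    have h1' : (t 1 : ℚ) ^ n ≠ 0 := pow_ne_zero _ (by exact_mod_cast h1)
    have h3 : P.eval ((t 0 : ℚ) / t 1) = 0 := by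
      rcases mul_eq_zero.1 h2.symm with h4 | h4
      · exact absurd h4 h1'
      · exact h4
    have hroot : ((t 0 : ℚ) / t 1) ∈ P.roots.toFinset := by
      rw [Multiset.mem_toFinset, Polynomial.mem_roots hP0]
      exact h3
    rcases lt_or_gt_of_ne h1 with hneg | hpos
    · right
      have hcop : Int.gcd (-t 0) (-t 1) = 1 := by
        rw [Int.gcd_neg, Int.neg_gcd]
        exact Int.isCoprime_iff_gcd_eq_one.1 hc
      have hpos' : 0 < -t 1 := by omega
      have h4 := Rat.num_div_eq_of_coprime hpos' (by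
        rw [Nat.coprime_iff_gcd_eq_one]
        exact hcop)
      have h5 := Rat.den_div_eq_of_coprime hpos' (by
        rw [Nat.coprime_iff_gcd_eq_one]
        exact hcop)
      have h6 : ((-t 0 : ℤ) : ℚ) / ((-t 1 : ℤ) : ℚ) = (t 0 : ℚ) / t 1 := by
        push_cast
        rw [neg_div_neg_eq]
      rw [h6] at h4 h5
      refine Finset.mem_image.2 ⟨_, hroot, ?_⟩
      rw [h4, h5, neg_neg, neg_neg]
      exact heta.symm
    · left
      have hcop : Int.gcd (t 0) (t 1) = 1 := Int.isCoprime_iff_gcd_eq_one.1 hc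
      have h4 := Rat.num_div_eq_of_coprime hpos (by
        rw [Nat.coprime_iff_gcd_eq_one]
        exact hcop)
      have h5 := Rat.den_div_eq_of_coprime hpos (by
        rw [Nat.coprime_iff_gcd_eq_one]
        exact hcop)
      refine Finset.mem_image.2 ⟨_, hroot, ?_⟩
      rw [h4, h5]
      exact heta.symm

end Pool.Agent.EVF.H92
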