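import Pool.Agent.EVF.StmtsB

/-!
# Squad EVF, row TPB: the top coefficient of the equation is a binary form
-/

set_option autoImplicit false

namespace Pool.Agent.EVF.H92

open MvPolynomial

/-- all the terms of `P` have the weight `w` -/
def Wt (W α β w : ℕ) (P : MvPolynomial (Fin 2) (MvPolynomial (Fin 2) ℤ)) : Prop :=
  ∀ e a, coeff a (coeff e P) ≠ 0 → W * (a 0 + a 1) + α * e 0 + β * e 1 = w

theorem wt_mul {W α β w w' : ℕ} {P Q : MvPolynomial (Fin 2) (MvPolynomial (Fin 2) ℤ)}
    (hP : Wt W α β w P) (hQ : Wt W α β w' Q) : Wt W α β (w + w') (P * Q) := by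
  intro e a h
  rw [coeff_mul, coeff_sum] at h
  obtain ⟨x, hx, h1⟩ := Finset.exists_ne_zero_of_sum_ne_zero h
  rw [coeff_mul] at h1
  obtain ⟨y, hy, h2⟩ := Finset.exists_ne_zero_of_sum_ne_zero h1
  rw [Finset.HasAntidiagonal.mem_antidiagonal] at hx hy
  have h3 := hP x.1 y.1 (left_ne_zero_of_mul h2)
  have h4 := hQ x.2 y.2 (right_ne_zero_of_mul h2)
  rw [← hx, ← hy]
  simp only [Finsupp.add_apply]
  linarith

theorem wt_sum {W α β w : ℕ} {ι : Type} (s : Finset ι)
    (f : ι → MvPolynomial (Fin 2) (MvPolynomial (Fin 2) ℤ)) (h : ∀ i ∈ s, Wt W α β w (f i)) :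
    Wt W α β w (∑ i ∈ s, f i) := by
  intro e a h0
  rw [coeff_sum, coeff_sum] at h0
  obtain ⟨i, hi, h1⟩ := Finset.exists_ne_zero_of_sum_ne_zero h0
  exact h i hi e a h1

theorem wt_one {W α β : ℕ} : Wt W α β 0 1 := by
  intro e a h
  have he : e = 0 := by
    by_contra hne
    rw [coeff_one, if_neg (Ne.symm hne), coeff_zero] at h
    exact h rfl
  subst he
  rw [coeff_one, if_pos rfl] at h
  have ha : a = 0 := by
    by_contra hne
    rw [coeff_one, if_neg (Ne.symm hne)] at h
    exact h rfl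
  subst ha
  simp

theorem wt_prod {W α β : ℕ} {ι : Type} (s : Finset ι) (w : ι → ℕ)
    (f : ι → MvPolynomial (Fin 2) (MvPolynomial (Fin 2) ℤ)) (h : ∀ i ∈ s, Wt W α β (w i) (f i)) :
    Wt W α β (∑ i ∈ s, w i) (∏ i ∈ s, f i) := by
  classical
  induction s using Finset.induction_on with
  | empty => exact wt_one
  | insert a s ha ih =>
    rw [Finset.sum_insert ha, Finset.prod_insert ha]
    exact wt_mul (h a (Finset.mem_insert_self _ _))
      (ih fun i hi => h i (Finset.mem_insert_of_mem hi))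

theorem wt_neg {W α β w : ℕ} {P : MvPolynomial (Fin 2) (MvPolynomial (Fin 2) ℤ)}
    (hP : Wt W α β w P) : Wt W α β w (-P) := by
  intro e a h
  rw [coeff_neg, coeff_neg] at h
  exact hP e a (neg_ne_zero.1 h)

theorem tpb : TpbStmt := by
  intro r s W M hW hM hne
  have hdet : Wt W s.α s.β (2 * s.wt) M.det := by
    rw [Matrix.det_apply]
    refine wt_sum _ _ fun σ _ => ?_
    have h1 : Wt W s.α s.β (2 * s.wt) (∏ i, M (σ i) i) := by
      have h2 : 2 * s.wt = ∑ i, (s.m (σ i) + s.m i) := by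
        rw [Finset.sum_add_distrib, Equiv.sum_comp σ s.m]
        unfold Shape.wt
        ring
      rw [h2]
      refine wt_prod _ _ _ fun i _ => ?_
      intro e a h
      refine hM (σ i) i e ?_ a (mem_support_iff.2 h)
      rw [mem_support_iff]
      intro h3
      rw [h3, coeff_zero] at h
      exact h rfl
    rcases Int.units_eq_one_or (Equiv.Perm.sign σ) with h3 | h3
    · rw [h3, one_smul]
      exact h1
    · rw [h3, Units.neg_smul, one_smul]
      exact wt_neg h1
  have hkey : ∀ a, coeff a (coeff (topE s) M.det) ≠ 0 →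
      W * (a 0 + a 1) + s.β * (s.deg / s.v) = 2 * s.wt := by
    intro a ha
    have h1 := hdet (topE s) a ha
    have h2 : topE s 0 = 0 := Finsupp.single_eq_of_ne (by decide)
    have h3 : topE s 1 = s.deg / s.v := Finsupp.single_eq_same
    rw [h2, h3] at h1
    simpa using h1
  obtain ⟨b, hb⟩ := ne_zero_iff.1 hne
  refine ⟨b 0 + b 1, ?_, hkey b hb⟩
  intro a ha
  have h1 := hkey a ha
  have h2 := hkey b hb
  have h3 : a 0 + a 1 = b 0 + b 1 := by
    have h4 : W * (a 0 + a 1) = W * (b 0 + b 1) := by omega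
    exact Nat.eq_of_mul_eq_mul_left hW h4
  rw [← h3, Finsupp.weight_apply, Finsupp.sum_fintype _ _ (fun i => by simp), Fin.sum_univ_two]
  simp

end Pool.Agent.EVF.H92
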