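import Pool.Agent.EVF.StmtsG
import Pool.Agent.Helper90_Frey.Horner

/-!
# Squad EVF: row EXT (helper92)
-/

namespace Pool.Agent.EVF.H92

open MvPolynomial Matrix
open Pool.Agent.EVF
open Pool.Agent.Helper90Frey (slice rts)

/-! ### slices -/

lemma slice_add (G H : MvPolynomial (Fin 2) ℂ) (x : ℂ) : slice (G + H) x = slice G x + slice H x :=
  map_add _ _ _

lemma slice_mul (G H : MvPolynomial (Fin 2) ℂ) (x : ℂ) : slice (G * H) x = slice G x * slice H x :=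
  map_mul _ _ _

lemma slice_sum {ι : Type*} (s : Finset ι) (G : ι → MvPolynomial (Fin 2) ℂ) (x : ℂ) :
    slice (∑ i ∈ s, G i) x = ∑ i ∈ s, slice (G i) x :=
  map_sum (MvPolynomial.aeval ![Polynomial.C x, Polynomial.X]) G s

lemma val_sum {ι : Type*} (s : Finset ι) (G : ι → MvPolynomial (Fin 2) ℂ) (x y : ℂ) :
    Helper90Frey.val (∑ i ∈ s, G i) x y = ∑ i ∈ s, Helper90Frey.val (G i) x y :=
  map_sum (MvPolynomial.eval ![x, y]) G s

lemma val_mul (G H : MvPolynomial (Fin 2) ℂ) (x y : ℂ) :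
    Helper90Frey.val (G * H) x y = Helper90Frey.val G x y * Helper90Frey.val H x y :=
  map_mul _ _ _

lemma natDegree_slice_le (G : MvPolynomial (Fin 2) ℂ) (x : ℂ) (d : ℕ)
    (h : ∀ e ∈ G.support, e 1 ≤ d) : (slice G x).natDegree ≤ d := by
  unfold slice
  rw [MvPolynomial.aeval_def, MvPolynomial.eval₂_eq']
  refine Polynomial.natDegree_sum_le_of_forall_le _ _ fun e he => ?_
  rw [Fin.prod_univ_two]
  show (Polynomial.C (coeff e G) * (Polynomial.C x ^ e 0 * Polynomial.X ^ e 1)).natDegree ≤ d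
  rw [← Polynomial.C_pow]
  refine (Polynomial.natDegree_C_mul_le _ _).trans ?_
  refine (Polynomial.natDegree_C_mul_le _ _).trans ?_
  rw [Polynomial.natDegree_X_pow]
  exact h e he

/-! ### degrees of the adjugate -/

lemma deg_det {r : ℕ} (B : CMat r) (K : ℕ) (h : ∀ i j, degreeOf 1 (B i j) ≤ K) :
    degreeOf 1 B.det ≤ r * K := by
  rw [Matrix.det_apply']
  refine (degreeOf_sum_le _ _ _).trans (Finset.sup_le fun σ _ => ?_)
  have h0 : ((Equiv.Perm.sign σ : ℤ) : MvPolynomial (Fin 2) ℂ) =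
      C (((Equiv.Perm.sign σ : ℤ) : ℂ)) :=
    (map_intCast (C : ℂ →+* MvPolynomial (Fin 2) ℂ) _).symm
  rw [h0]
  refine (degreeOf_C_mul_le _ _ _).trans ?_
  refine (degreeOf_prod_le _ _ _).trans ?_
  calc ∑ i, degreeOf 1 (B (σ i) i) ≤ ∑ _i : Fin r, K := Finset.sum_le_sum fun i _ => h _ _
    _ = r * K := by rw [Finset.sum_const, Finset.card_univ, Fintype.card_fin, smul_eq_mul]

lemma deg_adj {r : ℕ} (A : CMat r) (K : ℕ) (h : ∀ i j, degreeOf 1 (A i j) ≤ K) (i j : Fin r) :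
    degreeOf 1 (A.adjugate i j) ≤ r * K := by
  rw [Matrix.adjugate_apply]
  refine deg_det _ K fun a b => ?_
  rw [Matrix.updateRow_apply]
  split_ifs with h1
  · by_cases h2 : b = i
    · subst h2
      rw [Pi.single_eq_same, degreeOf_one]
      exact Nat.zero_le _
    · rw [Pi.single_eq_of_ne h2, degreeOf_zero]
      exact Nat.zero_le _
  · exact h _ _

/-! ### coefficients of products -/

lemma coeff_mul_bound (p q : Polynomial ℂ) (R a g : ℝ) (e : ℕ) (hR : 0 < R) (ha : 0 ≤ a)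
    (hg : 0 ≤ g) (hp : ∀ k, ‖p.coeff k‖ * R ^ k ≤ a) (hq : ∀ k, ‖q.coeff k‖ * R ^ (k + 1) ≤ g)
    (hd : q.natDegree < e) (k : ℕ) : ‖(p * q).coeff k‖ * R ^ (k + 1) ≤ e * (a * g) := by
  have h1 : (p * q).coeff k = ∑ c ∈ Finset.range e,
      if c ≤ k then p.coeff (k - c) * q.coeff c else 0 := by
    conv_lhs => rw [q.as_sum_range' e hd, Finset.mul_sum, Polynomial.finsetSum_coeff]
    refine Finset.sum_congr rfl fun c _ => ?_
    rw [← Polynomial.C_mul_X_pow_eq_monomial, ← mul_assoc, Polynomial.coeff_mul_X_pow']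
    split_ifs with h2
    · rw [Polynomial.coeff_mul_C]
    · rfl
  rw [h1]
  calc ‖∑ c ∈ Finset.range e, if c ≤ k then p.coeff (k - c) * q.coeff c else 0‖ * R ^ (k + 1)
      ≤ (∑ c ∈ Finset.range e, ‖if c ≤ k then p.coeff (k - c) * q.coeff c else 0‖) *
          R ^ (k + 1) :=
        mul_le_mul_of_nonneg_right (norm_sum_le _ _) (by positivity)
    _ = ∑ c ∈ Finset.range e, ‖if c ≤ k then p.coeff (k - c) * q.coeff c else 0‖ *
          R ^ (k + 1) := Finset.sum_mul _ _ _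
    _ ≤ ∑ _c ∈ Finset.range e, a * g := by
        refine Finset.sum_le_sum fun c _ => ?_
        split_ifs with h2
        · have h3 : R ^ (k + 1) = R ^ (k - c) * R ^ (c + 1) := by
            rw [← pow_add]
            congr 1
            omega
          rw [norm_mul, h3]
          calc ‖p.coeff (k - c)‖ * ‖q.coeff c‖ * (R ^ (k - c) * R ^ (c + 1))
              = (‖p.coeff (k - c)‖ * R ^ (k - c)) * (‖q.coeff c‖ * R ^ (c + 1)) := by ring
            _ ≤ a * g := mul_le_mul (hp _) (hq _) (by positivity) ha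
        · rw [norm_zero, zero_mul]
          positivity
    _ = e * (a * g) := by rw [Finset.sum_const, Finset.card_range, nsmul_eq_mul]

/-! ### numbers -/

lemma const_bound (r e d d' : ℕ) (C1 Q θ : ℝ) (hC : 1 ≤ C1) (hQ : 1 ≤ Q) (hθ : 0 < θ)
    (hθ1 : θ ≤ 1) :
    (d' + 1 : ℝ) ^ 2 * ((r * (e * (C1 * Q))) ^ 2 * ((1 + e * (C1 * Q ^ r / θ)) ^ d *
      (C1 * Q ^ r) * (e * (e * (C1 * Q ^ r) * (1 + e * (C1 * Q ^ r / θ)) ^ e) ^ 2)) / θ ^ 2) *
      (1 + C1 * Q ^ r / θ) ^ (2 * d') ≤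
    (1 + (d' + 1 : ℝ) ^ 2 * ((r * (e * C1)) ^ 2 * ((1 + e * C1) ^ d * C1 *
      (e * (e * C1 * (1 + e * C1) ^ e) ^ 2))) * (1 + C1) ^ (2 * d')) *
      (Q / θ) ^ (2 + ((r + 1) * d + r + 2 * (r + (r + 1) * e)) + (r + 1) * (2 * d')) := by
  have hL1 : 1 ≤ Q / θ := by
    rw [le_div_iff₀ hθ]
    linarith
  have hQL : Q ≤ Q / θ := by
    rw [le_div_iff₀ hθ]
    nlinarith
  have hL0 : 0 < Q / θ := by linarith
  have hC0 : 0 < C1 := by linarith
  have hQ0 : 0 < Q := by linarith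
  have h1 : Q ^ r ≤ (Q / θ) ^ r := pow_le_pow_left₀ hQ0.le hQL r
  have h2 : Q ^ r / θ ≤ (Q / θ) ^ (r + 1) := by
    rw [pow_succ]
    calc Q ^ r / θ = Q ^ r * (1 / θ) := by ring
      _ ≤ (Q / θ) ^ r * (Q / θ) := by
          refine mul_le_mul h1 ?_ (by positivity) (by positivity)
          exact div_le_div_of_nonneg_right hQ hθ.le
  have hp1 : (1 : ℝ) ≤ (Q / θ) ^ (r + 1) := one_le_pow₀ hL1
  have h3 : C1 * Q ^ r / θ ≤ C1 * (Q / θ) ^ (r + 1) := by
    rw [mul_div_assoc]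
    exact mul_le_mul_of_nonneg_left h2 hC0.le
  have h4 : 1 + e * (C1 * Q ^ r / θ) ≤ (1 + e * C1) * (Q / θ) ^ (r + 1) := by
    have := mul_le_mul_of_nonneg_left h3 (Nat.cast_nonneg (α := ℝ) e)
    nlinarith
  have h5 : 1 + C1 * Q ^ r / θ ≤ (1 + C1) * (Q / θ) ^ (r + 1) := by nlinarith
  have h6 : C1 * Q ^ r ≤ C1 * (Q / θ) ^ r := mul_le_mul_of_nonneg_left h1 hC0.le
  set L := Q / θ with hL
  have h7 : (r * (e * (C1 * Q))) ^ 2 * ((1 + e * (C1 * Q ^ r / θ)) ^ d *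
      (C1 * Q ^ r) * (e * (e * (C1 * Q ^ r) * (1 + e * (C1 * Q ^ r / θ)) ^ e) ^ 2)) / θ ^ 2 =
      (r * (e * C1)) ^ 2 * L ^ 2 * ((1 + e * (C1 * Q ^ r / θ)) ^ d *
      (C1 * Q ^ r) * (e * (e * (C1 * Q ^ r) * (1 + e * (C1 * Q ^ r / θ)) ^ e) ^ 2)) := by
    rw [hL]
    field_simp
  have h0 : 0 ≤ C1 * Q ^ r / θ := by positivity
  have h01 : 0 ≤ C1 * Q ^ r := by positivity
  rw [h7]
  calc (d' + 1 : ℝ) ^ 2 * ((r * (e * C1)) ^ 2 * L ^ 2 * ((1 + e * (C1 * Q ^ r / θ)) ^ d *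
      (C1 * Q ^ r) * (e * (e * (C1 * Q ^ r) * (1 + e * (C1 * Q ^ r / θ)) ^ e) ^ 2))) *
      (1 + C1 * Q ^ r / θ) ^ (2 * d')
      ≤ (d' + 1 : ℝ) ^ 2 * ((r * (e * C1)) ^ 2 * L ^ 2 * (((1 + e * C1) * L ^ (r + 1)) ^ d *
      (C1 * L ^ r) * (e * (e * (C1 * L ^ r) * ((1 + e * C1) * L ^ (r + 1)) ^ e) ^ 2))) *
      ((1 + C1) * L ^ (r + 1)) ^ (2 * d') := by
        gcongr
    _ = ((d' + 1 : ℝ) ^ 2 * ((r * (e * C1)) ^ 2 * ((1 + e * C1) ^ d * C1 *
      (e * (e * C1 * (1 + e * C1) ^ e) ^ 2))) * (1 + C1) ^ (2 * d')) *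
      L ^ (2 + ((r + 1) * d + r + 2 * (r + (r + 1) * e)) + (r + 1) * (2 * d')) := by
        generalize (1 + (e : ℝ) * C1) = U
        generalize (1 + C1) = V
        ring
    _ ≤ _ := by
        refine mul_le_mul_of_nonneg_right ?_ (by positivity)
        linarith

/-! ### the row -/

theorem ext (hlea : LeaStmt) (hdgp : DgpStmt) (hwsz : WszStmt) (hwsd : WsdStmt)
    (hdiv : DivStmt) : ExtStmt := by
  intro r s hs
  obtain ⟨C1, hC1, hW⟩ := hwsd r s hs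
  obtain ⟨e, he⟩ : ∃ e, e = s.deg / s.v := ⟨_, rfl⟩
  have he0 : 0 < e := by
    rw [he]
    exact Nat.div_pos hs.lt.le hs.v_pos
  obtain ⟨d', hd'⟩ : ∃ d', d' = 2 * s.deg := ⟨_, rfl⟩
  obtain ⟨d, hd⟩ : ∃ d, d = r * d' := ⟨_, rfl⟩
  have hC0 : 0 < C1 := by linarith
  refine ⟨1 + (d' + 1 : ℝ) ^ 2 * ((r * (e * C1)) ^ 2 * ((1 + e * C1) ^ d * C1 *
      (e * (e * C1 * (1 + e * C1) ^ e) ^ 2))) * (1 + C1) ^ (2 * d'),
      2 + ((r + 1) * d + r + 2 * (r + (r + 1) * e)) + (r + 1) * (2 * d'), ?_, ?_⟩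
  · have : 0 ≤ (d' + 1 : ℝ) ^ 2 * ((r * (e * C1)) ^ 2 * ((1 + e * C1) ^ d * C1 *
      (e * (e * C1 * (1 + e * C1) ^ e) ^ 2))) * (1 + C1) ^ (2 * d') := by positivity
    linarith
  intro A b Q θ hA hz q hq x hx hcard W hWy i k
  have hb0 : 0 < b := by linarith [hz.hb]
  have hQ0 : 0 < Q := by linarith [hz.hQ]
  have hθ := hz.hθ
  obtain ⟨-, -, -, -, -, w5, w6⟩ := hwsz s.α s.β b hb0.le
  obtain ⟨hlead, -⟩ := hlea r s A hs hA
  obtain ⟨ha, hdet, hadj⟩ := hW A b Q θ hA hz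
  have htop := hz.top
  rw [← he] at hlead hcard htop
  obtain ⟨R, hRdef⟩ : ∃ R : ℝ, R = b ^ s.β := ⟨_, rfl⟩
  have hR : 0 < R := by
    rw [hRdef]
    positivity
  have hRk : ∀ n : ℕ, b ^ (s.β * n) = R ^ n := fun n => by rw [hRdef, pow_mul]
  obtain ⟨B, hB⟩ : ∃ B : ℝ, B = b ^ (2 * s.wt) := ⟨_, rfl⟩
  have hB0 : 0 < B := by
    rw [hB]
    positivity
  rw [← hB] at hdet htop
  obtain ⟨T, hT⟩ : ∃ T : ℝ, T = 1 + e * (C1 * Q ^ r / θ) := ⟨_, rfl⟩
  have hT1 : 1 ≤ T := by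
    have : 0 ≤ (e : ℝ) * (C1 * Q ^ r / θ) := by positivity
    linarith
  obtain ⟨Φ, hΦ⟩ : ∃ Φ : ℝ, Φ = ∑ y ∈ rts A.det x,
    ‖∑ j, Helper90Frey.val (q j) x y * W y j‖ ^ 2 /
      ‖Helper90Frey.val (pderiv 1 A.det) x y‖ ^ 2 := ⟨_, rfl⟩
  have hΦ0 : 0 ≤ Φ := by
    rw [hΦ]
    exact Finset.sum_nonneg fun y _ => by positivity
  rw [← hΦ]
  -- (1) the roots
  have hroot : ∀ y ∈ rts A.det x, ‖y‖ ≤ T * R := fun y hy => by
    rw [hT]
    refine hlead.root_bound hR (by positivity) (fun j _ => ?_) (hlead.mem_rts.1 hy)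
    have h1 := w5 A.det x j hx
    rw [hRk] at h1
    rw [hRk] at htop
    calc ‖(slice A.det x).coeff j‖ * R ^ j ≤ C1 * Q ^ r * B := h1.trans hdet
      _ = C1 * Q ^ r / θ * (θ * B) := by field_simp
      _ ≤ C1 * Q ^ r / θ * (‖coeff (topE s) A.det‖ * R ^ e) :=
          mul_le_mul_of_nonneg_left htop (by positivity)
      _ = C1 * Q ^ r / θ * ‖coeff (topE s) A.det‖ * R ^ e := by ring
  -- (2) the values
  have hDle : ∀ j, s.D j ≤ s.deg := fun j =>
    Finset.single_le_sum (f := s.D) (fun _ _ => Nat.zero_le _) (Finset.mem_univ j)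
  have hdegA : ∀ i j, degreeOf 1 (A i j) ≤ d' := fun i j => by
    rw [degreeOf_le_iff]
    intro m hm
    have h1 := hA.deg i j m hm
    have h2 : m 1 ≤ s.v * m 1 := Nat.le_mul_of_pos_left _ hs.v_pos
    have h3 := hDle i
    have h4 := hDle j
    have h5 : 0 ≤ s.u * m 0 := Nat.zero_le _
    omega
  have hdegadj : ∀ i j, ∀ m ∈ (A.adjugate i j).support, m 1 ≤ d := fun i j => by
    rw [← degreeOf_le_iff, hd]
    exact deg_adj A d' hdegA i j
  have hWb : ∀ y ∈ rts A.det x, ∀ i, ‖W y i‖ ^ 2 * (b ^ s.m i) ^ 2 ≤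
      T ^ d * (C1 * Q ^ r * B) := fun y hy i => by
    have h1 : ‖W y i‖ ^ 2 = ‖Helper90Frey.val (A.adjugate i i) x y‖ := by
      rw [hWy y hy i i, norm_mul, sq]
    have h2 := w6 (A.adjugate i i) x y T d hT1 hx (by
      rw [← hRdef]
      exact hroot y hy) (hdegadj i i)
    have h3 := hadj i i
    rw [← hB] at h3
    have h4 : b ^ (s.m i + s.m i) = (b ^ s.m i) ^ 2 := by
      rw [sq, ← pow_add]
    rw [h4] at h3
    calc ‖W y i‖ ^ 2 * (b ^ s.m i) ^ 2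
        ≤ (T ^ d * wsz s.α s.β b (A.adjugate i i)) * (b ^ s.m i) ^ 2 := by
          rw [h1]
          exact mul_le_mul_of_nonneg_right h2 (by positivity)
      _ = T ^ d * (wsz s.α s.β b (A.adjugate i i) * (b ^ s.m i) ^ 2) := by ring
      _ ≤ T ^ d * (C1 * Q ^ r * B) := mul_le_mul_of_nonneg_left h3 (by positivity)
  have hP : ∀ i y, y ∈ rts A.det x → Helper90Frey.val ((A.adjugate *ᵥ q) i) x y =
      W y i * ∑ j, Helper90Frey.val (q j) x y * W y j := fun i y hy => by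
    rw [Matrix.mulVec, dotProduct, val_sum, Finset.mul_sum]
    refine Finset.sum_congr rfl fun j _ => ?_
    rw [val_mul, hWy y hy]
    ring
  -- (3) the coefficients of the slices of `P`
  have hder : ∀ y ∈ rts A.det x, Helper90Frey.val (pderiv 1 A.det) x y ≠ 0 := fun y hy =>
    (hlead.card_eq_iff x).1 hcard y (hlead.mem_rts.1 hy)
  have hPd : ∀ i, (slice ((A.adjugate *ᵥ q) i) x).natDegree < e := fun i => by
    have h1 := natDegree_slice_le ((A.adjugate *ᵥ q) i) x (e - 1) (fun m hm => by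
      have := hdgp r s A q hs hA hq i m hm
      omega)
    omega
  obtain ⟨K1, hK1⟩ : ∃ K1 : ℝ, K1 = T ^ d * (C1 * Q ^ r) *
    (e * (e * (C1 * Q ^ r) * T ^ e) ^ 2) := ⟨_, rfl⟩
  have hK0 : 0 ≤ K1 := by
    rw [hK1]
    positivity
  have hX : ∀ j c, (‖(slice ((A.adjugate *ᵥ q) j) x).coeff c‖ * R ^ (c + 1) * b ^ s.m j) ^ 2 ≤
      K1 * (B ^ 3 * Φ) := fun j c => by
    have h1 := Helper90Frey.coeff_sq_le (q := slice A.det x)
      (P := slice ((A.adjugate *ᵥ q) j) x) (s := rts A.det x)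
      (fun y hy => by rw [Helper90Frey.slice_eval]; exact hlead.mem_rts.1 hy)
      (fun y hy => by
        rw [Helper90Frey.slice_derivative, Helper90Frey.slice_eval]
        exact hder y hy)
      (by rw [hcard]; exact (hlead.2 x).1) (by rw [hcard]; exact he0)
      (by rw [hcard]; exact hPd j) hR hT1 (Q := C1 * Q ^ r * B) (by positivity)
      (fun n _ => by
        have h2 := w5 A.det x n hx
        rw [hRk] at h2
        exact h2.trans hdet) hroot c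
    rw [hcard] at h1
    have h3 : (∑ y ∈ rts A.det x, ‖(slice ((A.adjugate *ᵥ q) j) x).eval y‖ ^ 2 /
        ‖(Polynomial.derivative (slice A.det x)).eval y‖ ^ 2) * (b ^ s.m j) ^ 2 ≤
        T ^ d * (C1 * Q ^ r * B) * Φ := by
      rw [hΦ, Finset.sum_mul, Finset.mul_sum]
      refine Finset.sum_le_sum fun y hy => ?_
      rw [Helper90Frey.slice_derivative, Helper90Frey.slice_eval, Helper90Frey.slice_eval,
        hP j y hy, norm_mul, mul_pow]
      calc ‖W y j‖ ^ 2 * ‖∑ j, Helper90Frey.val (q j) x y * W y j‖ ^ 2 /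
            ‖Helper90Frey.val (pderiv 1 A.det) x y‖ ^ 2 * (b ^ s.m j) ^ 2
          = (‖W y j‖ ^ 2 * (b ^ s.m j) ^ 2) *
            (‖∑ j, Helper90Frey.val (q j) x y * W y j‖ ^ 2 /
            ‖Helper90Frey.val (pderiv 1 A.det) x y‖ ^ 2) := by ring
        _ ≤ _ := mul_le_mul_of_nonneg_right (hWb y hy j) (by positivity)
    calc (‖(slice ((A.adjugate *ᵥ q) j) x).coeff c‖ * R ^ (c + 1) * b ^ s.m j) ^ 2
        = (‖(slice ((A.adjugate *ᵥ q) j) x).coeff c‖ ^ 2 * (R ^ (c + 1)) ^ 2) *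
          (b ^ s.m j) ^ 2 := by ring
      _ ≤ ((∑ y ∈ rts A.det x, ‖(slice ((A.adjugate *ᵥ q) j) x).eval y‖ ^ 2 /
        ‖(Polynomial.derivative (slice A.det x)).eval y‖ ^ 2) *
        (e * (e * (C1 * Q ^ r * B) * T ^ e) ^ 2)) * (b ^ s.m j) ^ 2 :=
          mul_le_mul_of_nonneg_right h1 (by positivity)
      _ = ((∑ y ∈ rts A.det x, ‖(slice ((A.adjugate *ᵥ q) j) x).eval y‖ ^ 2 /
        ‖(Polynomial.derivative (slice A.det x)).eval y‖ ^ 2) * (b ^ s.m j) ^ 2) *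
        (e * (e * (C1 * Q ^ r * B) * T ^ e) ^ 2) := by ring
      _ ≤ (T ^ d * (C1 * Q ^ r * B) * Φ) * (e * (e * (C1 * Q ^ r * B) * T ^ e) ^ 2) :=
          mul_le_mul_of_nonneg_right h3 (by positivity)
      _ = K1 * (B ^ 3 * Φ) := by
          rw [hK1]
          ring
  obtain ⟨Γ, hΓ⟩ : ∃ Γ : ℝ, Γ = Real.sqrt (K1 * (B ^ 3 * Φ)) := ⟨_, rfl⟩
  have hΓ0 : 0 ≤ Γ := by
    rw [hΓ]
    exact Real.sqrt_nonneg _
  have hΓ2 : Γ ^ 2 = K1 * (B ^ 3 * Φ) := by
    rw [hΓ]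
    exact Real.sq_sqrt (by positivity)
  have hX' : ∀ j c, ‖(slice ((A.adjugate *ᵥ q) j) x).coeff c‖ * R ^ (c + 1) ≤
      Γ / b ^ s.m j := fun j c => by
    rw [le_div_iff₀ (by positivity), hΓ]
    exact Real.le_sqrt_of_sq_le (hX j c)
  -- (4) the product
  have hprod : slice A.det x * slice (q i) x =
      ∑ j, slice (A i j) x * slice ((A.adjugate *ᵥ q) j) x := by
    have h1 : A *ᵥ (A.adjugate *ᵥ q) = A.det • q := by
      rw [Matrix.mulVec_mulVec, Matrix.mul_adjugate, Matrix.smul_mulVec, Matrix.one_mulVec]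
    have h2 : ∑ j, A i j * (A.adjugate *ᵥ q) j = A.det * q i := by
      have h3 := congrFun h1 i
      rw [Pi.smul_apply, smul_eq_mul] at h3
      exact h3
    rw [← slice_mul, ← h2, slice_sum]
    exact Finset.sum_congr rfl fun j _ => slice_mul _ _ _
  obtain ⟨G, hG⟩ : ∃ G : ℝ, G = r * (e * (C1 * Q)) * b ^ s.m i * Γ := ⟨_, rfl⟩
  have hG0 : 0 ≤ G := by
    rw [hG]
    positivity
  have hcoef : ∀ c, ‖(slice A.det x * slice (q i) x).coeff c‖ * R ^ (c + 1) ≤ G := fun c => by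
    rw [hprod, Polynomial.finsetSum_coeff]
    calc ‖∑ j, (slice (A i j) x * slice ((A.adjugate *ᵥ q) j) x).coeff c‖ * R ^ (c + 1)
        ≤ (∑ j, ‖(slice (A i j) x * slice ((A.adjugate *ᵥ q) j) x).coeff c‖) * R ^ (c + 1) :=
          mul_le_mul_of_nonneg_right (norm_sum_le _ _) (by positivity)
      _ = ∑ j, ‖(slice (A i j) x * slice ((A.adjugate *ᵥ q) j) x).coeff c‖ * R ^ (c + 1) :=
          Finset.sum_mul _ _ _
      _ ≤ ∑ _j : Fin r, e * (C1 * Q * b ^ s.m i * Γ) := by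
          refine Finset.sum_le_sum fun j _ => ?_
          have h1 := coeff_mul_bound (slice (A i j) x) (slice ((A.adjugate *ᵥ q) j) x) R
            (C1 * Q * b ^ (s.m i + s.m j)) (Γ / b ^ s.m j) e hR (by positivity)
            (by positivity) (fun n => by
              have h2 := w5 (A i j) x n hx
              rw [hRk] at h2
              exact h2.trans (ha i j)) (hX' j) (hPd j) c
          refine h1.trans (le_of_eq ?_)
          rw [pow_add]
          field_simp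
      _ = G := by
          rw [Finset.sum_const, Finset.card_univ, Fintype.card_fin, nsmul_eq_mul, hG]
          ring
  -- (5) the division
  have hqd : (slice (q i) x).natDegree ≤ d' := natDegree_slice_le _ _ _ fun m hm => by
    have h1 := hq i m hm
    have h2 : m 1 ≤ s.v * (m 1 + 1) :=
      (Nat.le_succ _).trans (Nat.le_mul_of_pos_left _ hs.v_pos)
    have h3 := hDle i
    have h5 : 0 ≤ s.u * (m 0 + 1) := Nat.zero_le _
    omega
  have hfin := hdiv (slice A.det x) (slice (q i) x) R (C1 * Q ^ r * B) (G / R) (θ * B) d' hR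
    (by positivity) (by positivity) (by positivity)
    (fun n => by
      have h2 := w5 A.det x n hx
      rw [hRk] at h2
      exact h2.trans hdet)
    (by
      rw [(hlead.2 x).1, (hlead.2 x).2]
      rw [hRk] at htop
      exact htop) hqd
    (fun n => by
      rw [le_div_iff₀ hR, mul_assoc, ← pow_succ]
      exact hcoef n) k
  have hML : C1 * Q ^ r * B / (θ * B) = C1 * Q ^ r / θ := by
    field_simp
  rw [hML] at hfin
  have hf2 : ‖(slice (q i) x).coeff k‖ * R ^ (k + 1) ≤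
      (d' + 1) * (G / (θ * B)) * (1 + C1 * Q ^ r / θ) ^ d' := by
    calc ‖(slice (q i) x).coeff k‖ * R ^ (k + 1) =
        (‖(slice (q i) x).coeff k‖ * R ^ k) * R := by ring
      _ ≤ ((d' + 1) * (G / R / (θ * B)) * (1 + C1 * Q ^ r / θ) ^ d') * R :=
          mul_le_mul_of_nonneg_right hfin hR.le
      _ = (d' + 1) * (G / (θ * B)) * (1 + C1 * Q ^ r / θ) ^ d' := by
          field_simp
  have hf3 := pow_le_pow_left₀ (by positivity) hf2 2
  have hcb := const_bound r e d d' C1 Q θ hC1 hz.hQ hθ hz.hθ1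
  rw [← hT, ← hK1] at hcb
  rw [hRk]
  calc ‖(slice (q i) x).coeff k‖ ^ 2 * (R ^ (k + 1)) ^ 2
      = (‖(slice (q i) x).coeff k‖ * R ^ (k + 1)) ^ 2 := by ring
    _ ≤ ((d' + 1) * (G / (θ * B)) * (1 + C1 * Q ^ r / θ) ^ d') ^ 2 := hf3
    _ = ((d' + 1 : ℝ) ^ 2 * ((r * (e * (C1 * Q))) ^ 2 * K1 / θ ^ 2) *
        (1 + C1 * Q ^ r / θ) ^ (2 * d')) * ((b ^ (s.wt + s.m i)) ^ 2 * Φ) := by
        have h1 : G ^ 2 = (r * (e * (C1 * Q))) ^ 2 * (b ^ s.m i) ^ 2 * (K1 * (B ^ 3 * Φ)) := by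
          rw [hG, mul_pow, mul_pow, hΓ2]
        have h2 : (b ^ (s.wt + s.m i)) ^ 2 = B * (b ^ s.m i) ^ 2 := by
          rw [hB, pow_add, mul_pow, ← pow_mul b s.wt 2, mul_comm s.wt 2]
        have h3 : ((1 + C1 * Q ^ r / θ) ^ d') ^ 2 = (1 + C1 * Q ^ r / θ) ^ (2 * d') := by
          rw [← pow_mul, mul_comm d' 2]
        rw [mul_pow, mul_pow, div_pow, h1, h2, h3]
        generalize (1 + C1 * Q ^ r / θ) ^ (2 * d') = Z
        field_simp
    _ ≤ (_ * _) * ((b ^ (s.wt + s.m i)) ^ 2 * Φ) :=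
        mul_le_mul_of_nonneg_right hcb (by positivity)
    _ = _ := by ring

end Pool.Agent.EVF.H92
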